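import Mathlib

set_option autoImplicit false

/-! Heat-bath updates of the Potts model. -/

namespace Pool.Agent.N983.PC

/-- weight of a configuration of the `q`-state Potts model on the graph `G` -/
noncomputable def wt {n q : ℕ} (G : SimpleGraph (Fin n)) [DecidableRel G.Adj] (β : ℝ)
    (σ : Fin n → Fin q) : ℝ :=
  Real.exp (β * ((G.edgeFinset.filter fun e => ∃ i j, e = s(i, j) ∧ σ i = σ j).card : ℝ))

/-- the Potts model -/
noncomputable def gibbs {n q : ℕ} (G : SimpleGraph (Fin n)) [DecidableRel G.Adj] (β : ℝ)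
    (σ : Fin n → Fin q) : ℝ :=
  wt G β σ / ∑ τ : Fin n → Fin q, wt G β τ

/-- the transition kernel of the heat-bath update at `v` -/
noncomputable def upd {n q : ℕ} (G : SimpleGraph (Fin n)) [DecidableRel G.Adj] (β : ℝ) (v : Fin n)
    (σ τ : Fin n → Fin q) : ℝ :=
  if ∀ u, u ≠ v → σ u = τ u then gibbs G β τ / ∑ a : Fin q, gibbs G β (Function.update σ v a)
  else 0

/-- the law after the updates at the sites of the list, started at `μ` -/
noncomputable def run {n q : ℕ} (G : SimpleGraph (Fin n)) [DecidableRel G.Adj] (β : ℝ) :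
    List (Fin n) → ((Fin n → Fin q) → ℝ) → ((Fin n → Fin q) → ℝ)
  | [], μ => μ
  | v :: l, μ => run G β l fun τ => ∑ σ, μ σ * upd G β v σ τ

/-- total variation distance -/
noncomputable def TV {n q : ℕ} (μ ν : (Fin n → Fin q) → ℝ) : ℝ := (∑ σ, |μ σ - ν σ|) / 2

/-- the law started at the configuration with all spins equal to `0` -/
noncomputable def law {n q : ℕ} [NeZero q] (G : SimpleGraph (Fin n)) [DecidableRel G.Adj] (β : ℝ)
    (l : List (Fin n)) : (Fin n → Fin q) → ℝ :=
  run G β l fun σ => if σ = fun _ => 0 then 1 else 0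

end Pool.Agent.N983.PC
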