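import Pool.Agent.N983.PC.Def

set_option autoImplicit false

/-! The censoring inequality fails for the antiferromagnetic Potts model on the path with three
vertices. -/

namespace Pool.Agent.N983.PC

namespace Aux

/-- the path with the vertices `1`, `0`, `2` -/
def star3 : SimpleGraph (Fin 3) where
  Adj i j := i ≠ j ∧ (i = 0 ∨ j = 0)
  symm := ⟨fun _ _ h => ⟨h.1.symm, h.2.symm⟩⟩
  loopless := ⟨fun _ h => h.1 rfl⟩

instance : DecidableRel star3.Adj :=
  fun i j => inferInstanceAs (Decidable (i ≠ j ∧ (i = 0 ∨ j = 0)))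

/-- the weight of an edge -/
noncomputable def kk {q : ℕ} (x : ℝ) (a b : Fin q) : ℝ := if a = b then x else 1

lemma edge_iff {q : ℕ} (σ : Fin 3 → Fin q) (a b : Fin 3) :
    (∃ i j, s(a, b) = s(i, j) ∧ σ i = σ j) ↔ σ a = σ b := by
  constructor
  · rintro ⟨i, j, h, hs⟩
    rcases Sym2.eq_iff.mp h with ⟨h1, h2⟩ | ⟨h1, h2⟩
    · rw [h1, h2, hs]
    · rw [h1, h2, hs]
  · intro h
    exact ⟨a, b, rfl, h⟩

lemma edges : star3.edgeFinset = {s(0, 1), s(0, 2)} := by decide

lemma wt_star {q : ℕ} (β : ℝ) (σ : Fin 3 → Fin q) :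
    wt star3 β σ = kk (Real.exp β) (σ 0) (σ 1) * kk (Real.exp β) (σ 0) (σ 2) := by
  unfold wt kk
  rw [edges, Finset.filter_insert, Finset.filter_singleton]
  simp only [edge_iff]
  have hne : s((0 : Fin 3), 1) ≠ s(0, 2) := by decide
  by_cases h1 : σ 0 = σ 1
  · by_cases h2 : σ 0 = σ 2
    · rw [if_pos h1, if_pos h2, if_pos h1, if_pos h2, Finset.card_pair hne, ← Real.exp_add]
      congr 1
      push_cast
      ring
    · rw [if_pos h1, if_neg h2, if_pos h1, if_neg h2]
      simp
  · by_cases h2 : σ 0 = σ 2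
    · rw [if_neg h1, if_pos h2, if_neg h1, if_pos h2]
      simp
    · rw [if_neg h1, if_neg h2, if_neg h1, if_neg h2]
      simp

/-- a function of the three spins -/
def lift {q : ℕ} (h : Fin q → Fin q → Fin q → ℝ) : (Fin 3 → Fin q) → ℝ :=
  fun τ => h (τ 0) (τ 1) (τ 2)

/-- one update -/
lemma step_eq {n q : ℕ} (G : SimpleGraph (Fin n)) [DecidableRel G.Adj] (β : ℝ) (v : Fin n)
    (μ : (Fin n → Fin q) → ℝ) (τ : Fin n → Fin q) :
    ∑ σ, μ σ * upd G β v σ τ = (∑ a, μ (Function.update τ v a)) *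
      (wt G β τ / ∑ a, wt G β (Function.update τ v a)) := by
  have hZ : (∑ σ : Fin n → Fin q, wt G β σ) ≠ 0 := by
    apply ne_of_gt
    refine Finset.sum_pos (fun σ _ => Real.exp_pos _) ⟨τ, Finset.mem_univ _⟩
  have h1 : gibbs G β τ / ∑ a, gibbs G β (Function.update τ v a) =
      wt G β τ / ∑ a, wt G β (Function.update τ v a) := by
    unfold gibbs
    rw [← Finset.sum_div, div_div_div_cancel_right₀ hZ]
  have h2 : ∀ σ, μ σ * upd G β v σ τ = if ∀ u, u ≠ v → σ u = τ u then
      μ σ * (wt G β τ / ∑ a, wt G β (Function.update τ v a)) else 0 := by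
    intro σ
    unfold upd
    split_ifs with h
    · have h3 : ∀ a, Function.update σ v a = Function.update τ v a := by
        intro a
        funext u
        by_cases hu : u = v
        · subst hu; simp
        · simp only [Function.update_of_ne hu]; exact h u hu
      simp only [h3]
      rw [h1]
    · rw [mul_zero]
  rw [Finset.sum_congr rfl (fun σ _ => h2 σ), ← Finset.sum_filter, Finset.sum_mul]
  symm
  refine Finset.sum_bij (fun a _ => Function.update τ v a) ?_ ?_ ?_ ?_
  · intro a _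
    simp only [Finset.mem_filter, Finset.mem_univ, true_and]
    intro u hu
    exact Function.update_of_ne hu _ _
  · intro a _ b _ hab
    have := congrFun hab v
    simpa using this
  · intro σ hσ
    simp only [Finset.mem_filter, Finset.mem_univ, true_and] at hσ
    refine ⟨σ v, Finset.mem_univ _, ?_⟩
    funext u
    by_cases hu : u = v
    · subst hu; simp
    · rw [Function.update_of_ne hu, hσ u hu]
  · intro a _
    rfl

section

variable {q : ℕ} (β : ℝ)

lemma step0 (h : Fin q → Fin q → Fin q → ℝ) :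
    (fun τ => ∑ σ, lift h σ * upd star3 β 0 σ τ) =
      lift fun c a b => (∑ c', h c' a b) * (kk (Real.exp β) c a * kk (Real.exp β) c b /
        ∑ c', kk (Real.exp β) c' a * kk (Real.exp β) c' b) := by
  funext τ
  rw [step_eq]
  simp only [wt_star, lift]
  have h0 : ∀ c', Function.update τ 0 c' 0 = c' := fun c' => by simp
  have h1 : ∀ c', Function.update τ 0 c' 1 = τ 1 := fun c' => by simp
  have h2 : ∀ c', Function.update τ 0 c' 2 = τ 2 := fun c' => by simp
  simp only [h0, h1, h2]

lemma step1 (h : Fin q → Fin q → Fin q → ℝ) :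
    (fun τ => ∑ σ, lift h σ * upd star3 β 1 σ τ) =
      lift fun c a b => (∑ a', h c a' b) * (kk (Real.exp β) c a * kk (Real.exp β) c b /
        ∑ a', kk (Real.exp β) c a' * kk (Real.exp β) c b) := by
  funext τ
  rw [step_eq]
  simp only [wt_star, lift]
  have h0 : ∀ c', Function.update τ 1 c' 0 = τ 0 := fun c' => by simp
  have h1 : ∀ c', Function.update τ 1 c' 1 = c' := fun c' => by simp
  have h2 : ∀ c', Function.update τ 1 c' 2 = τ 2 := fun c' => by simp
  simp only [h0, h1, h2]

lemma step2 (h : Fin q → Fin q → Fin q → ℝ) :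
    (fun τ => ∑ σ, lift h σ * upd star3 β 2 σ τ) =
      lift fun c a b => (∑ b', h c a b') * (kk (Real.exp β) c a * kk (Real.exp β) c b /
        ∑ b', kk (Real.exp β) c a * kk (Real.exp β) c b') := by
  funext τ
  rw [step_eq]
  simp only [wt_star, lift]
  have h0 : ∀ c', Function.update τ 2 c' 0 = τ 0 := fun c' => by simp
  have h1 : ∀ c', Function.update τ 2 c' 1 = τ 1 := fun c' => by simp
  have h2 : ∀ c', Function.update τ 2 c' 2 = c' := fun c' => by simp
  simp only [h0, h1, h2]

end

lemma kk_pos {q : ℕ} {x : ℝ} (hx : 0 < x) (a b : Fin q) : 0 < kk x a b := by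
  unfold kk; split_ifs <;> positivity

/-- the sum over one end of an edge -/
lemma sum_kk {q : ℕ} (x : ℝ) (a : Fin q) : ∑ b, kk x a b = x + q - 1 := by
  have h : ∀ b, kk x a b = (if a = b then x - 1 else 0) + 1 := by
    intro b; unfold kk; split_ifs <;> ring
  rw [Finset.sum_congr rfl (fun b _ => h b), Finset.sum_add_distrib, Finset.sum_ite_eq]
  simp
  ring

lemma sum_triple {q : ℕ} (f : (Fin 3 → Fin q) → ℝ) :
    ∑ σ, f σ = ∑ c, ∑ a, ∑ b, f ![c, a, b] := by
  let e : (Fin q × Fin q × Fin q) ≃ (Fin 3 → Fin q) :=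
    { toFun := fun p => ![p.1, p.2.1, p.2.2]
      invFun := fun σ => (σ 0, σ 1, σ 2)
      left_inv := fun p => by simp
      right_inv := fun σ => by
        funext i
        fin_cases i <;> rfl }
  rw [← Equiv.sum_comp e, Fintype.sum_prod_type]
  refine Finset.sum_congr rfl (fun c _ => ?_)
  rw [Fintype.sum_prod_type]
  rfl

section

variable {q : ℕ} [NeZero q]

/-- the indicator function of the colour `0` -/
noncomputable def dd (a : Fin q) : ℝ := if a = 0 then 1 else 0

/-- the law with independent spins `g`, `0`, `0` -/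
noncomputable def g0 (g : Fin q → ℝ) : Fin q → Fin q → Fin q → ℝ :=
  fun c a b => g c * dd a * dd b

lemma sum_dd : ∑ a : Fin q, dd a = 1 := by
  unfold dd
  rw [Finset.sum_ite_eq']
  simp

lemma kk_comm {q : ℕ} (x : ℝ) (a b : Fin q) : kk x a b = kk x b a := by
  unfold kk
  by_cases h : a = b
  · rw [if_pos h, if_pos h.symm]
  · rw [if_neg h, if_neg (fun h' => h h'.symm)]

lemma sum_mix (A B x : ℝ) (a : Fin q) : ∑ c : Fin q, (if c = 0 then A else B) * kk x c a =
    (if a = 0 then (A - B) * (x - 1) else 0) + (A - B) + B * (x - 1) + B * q := by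
  have h : ∀ c : Fin q, (if c = 0 then A else B) * kk x c a =
      (if c = 0 then (A - B) * (if a = 0 then x - 1 else 0) else 0) +
        (if c = 0 then (A - B) else 0) + (if c = a then B * (x - 1) else 0) + B := by
    intro c
    unfold kk
    by_cases h1 : c = 0
    · subst h1
      by_cases h2 : a = 0
      · subst h2
        simp
        ring
      · have h3 : ¬ (0 = a) := fun h => h2 h.symm
        simp [h2, h3]
    · by_cases h2 : c = a
      · subst h2
        simp [h1]
        ring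
      · simp [h1, h2]
  rw [Finset.sum_congr rfl (fun c _ => h c), Finset.sum_add_distrib, Finset.sum_add_distrib,
    Finset.sum_add_distrib, Finset.sum_ite_eq', Finset.sum_ite_eq', Finset.sum_ite_eq']
  simp only [Finset.mem_univ, if_true, Finset.sum_const, Finset.card_univ, Fintype.card_fin,
    nsmul_eq_mul]
  split_ifs <;> ring

lemma sum_ite0 (A B : ℝ) : ∑ c : Fin q, (if c = 0 then A else B) = A + (q - 1) * B := by
  have h : ∀ c : Fin q, (if c = 0 then A else B) = (if c = 0 then A - B else 0) + B := by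
    intro c
    split_ifs <;> ring
  rw [Finset.sum_congr rfl (fun c _ => h c), Finset.sum_add_distrib, Finset.sum_ite_eq']
  simp
  ring

/-- the law of the spin at the vertex `1` after the first update -/
noncomputable def RR (x : ℝ) (g : Fin q → ℝ) (a : Fin q) : ℝ :=
  (∑ c, g c * kk x c a) / (x + q - 1)

/-- the denominator of the update of the centre -/
noncomputable def DD (x : ℝ) (a : Fin q) : ℝ := ∑ c : Fin q, kk x c a * kk x c 0

/-- the law of the centre after its update -/
noncomputable def FF (x : ℝ) (g : Fin q → ℝ) (c : Fin q) : ℝ :=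
  ∑ a, RR x g a * (kk x c a * kk x c 0 / DD x a)

lemma run_tail (β : ℝ) (g : Fin q → ℝ) :
    run star3 β [1, 0, 1, 2] (lift (g0 g)) =
      lift fun c a b => FF (Real.exp β) g c * (kk (Real.exp β) c a / (Real.exp β + q - 1)) *
        (kk (Real.exp β) c b / (Real.exp β + q - 1)) := by
  have hx : 0 < Real.exp β := Real.exp_pos β
  set x := Real.exp β with hxdef
  have k1 : ∀ c a b : Fin q, kk x c a * kk x c b / ∑ a', kk x c a' * kk x c b =
      kk x c a / (x + q - 1) := by
    intro c a b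
    rw [← Finset.sum_mul, sum_kk, mul_div_mul_right _ _ (kk_pos hx c b).ne']
  have k2 : ∀ c a b : Fin q, kk x c a * kk x c b / ∑ b', kk x c a * kk x c b' =
      kk x c b / (x + q - 1) := by
    intro c a b
    rw [← Finset.mul_sum, sum_kk, mul_div_mul_left _ _ (kk_pos hx c a).ne']
  have e1 : (fun c a b => (∑ a', g0 g c a' b) * (kk x c a * kk x c b /
      ∑ a', kk x c a' * kk x c b)) = fun c a b => g c * kk x c a / (x + q - 1) * dd b := by
    funext c a b
    rw [k1]
    unfold g0
    rw [← Finset.sum_mul, ← Finset.mul_sum, sum_dd]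
    ring
  have e2 : (fun c a b => (∑ c' : Fin q, g c' * kk x c' a / (x + q - 1) * dd b) *
      (kk x c a * kk x c b / ∑ c' : Fin q, kk x c' a * kk x c' b)) =
      fun c a b => RR x g a * (kk x c a * kk x c 0 / DD x a) * dd b := by
    funext c a b
    rw [← Finset.sum_mul, ← Finset.sum_div]
    unfold RR DD dd
    split_ifs with h
    · rw [h]; ring
    · ring
  have e3 : (fun c a b => (∑ a', RR x g a' * (kk x c a' * kk x c 0 / DD x a') * dd b) *
      (kk x c a * kk x c b / ∑ a', kk x c a' * kk x c b)) =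
      fun c a b => FF x g c * (kk x c a / (x + q - 1)) * dd b := by
    funext c a b
    rw [k1, ← Finset.sum_mul]
    unfold FF
    ring
  have e4 : (fun c a b => (∑ b' : Fin q, FF x g c * (kk x c a / (x + q - 1)) * dd b') *
      (kk x c a * kk x c b / ∑ b', kk x c a * kk x c b')) =
      fun c a b => FF x g c * (kk x c a / (x + q - 1)) * (kk x c b / (x + q - 1)) := by
    funext c a b
    rw [k2, ← Finset.mul_sum, sum_dd, mul_one]
  have r1 : ∀ (v : Fin 3) (l : List (Fin 3)) (μ : (Fin 3 → Fin q) → ℝ),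
      run star3 β (v :: l) μ = run star3 β l (fun τ => ∑ σ, μ σ * upd star3 β v σ τ) :=
    fun _ _ _ => rfl
  rw [r1, step1, ← hxdef, e1, r1, step0, ← hxdef, e2, r1, step1, ← hxdef, e3, r1, step2, ← hxdef,
    e4]
  rfl

omit [NeZero q] in
lemma gibbs_star (β : ℝ) (hq : 0 < q) (hN : 0 < Real.exp β + q - 1) :
    gibbs (q := q) star3 β = lift fun c a b => (1 / q : ℝ) *
      (kk (Real.exp β) c a / (Real.exp β + q - 1)) *
        (kk (Real.exp β) c b / (Real.exp β + q - 1)) := by
  funext τ
  unfold gibbs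
  rw [sum_triple]
  simp only [wt_star, lift]
  have h : ∑ c : Fin q, ∑ a, ∑ b, kk (Real.exp β) (![c, a, b] 0) (![c, a, b] 1) *
      kk (Real.exp β) (![c, a, b] 0) (![c, a, b] 2) = q * (Real.exp β + q - 1) ^ 2 := by
    have h1 : ∀ c a b : Fin q, kk (Real.exp β) (![c, a, b] 0) (![c, a, b] 1) *
      kk (Real.exp β) (![c, a, b] 0) (![c, a, b] 2) = kk (Real.exp β) c a * kk (Real.exp β) c b :=
      fun c a b => rfl
    simp only [h1]
    simp only [← Finset.mul_sum, ← Finset.sum_mul, sum_kk]
    simp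
    ring
  rw [h]
  have hq' : (0 : ℝ) < q := by exact_mod_cast hq
  field_simp

omit [NeZero q] in
lemma TV_star (x : ℝ) (hx : 0 < x) (F G : Fin q → ℝ) (hN : 0 < x + q - 1) :
    TV (lift fun c a b => F c * (kk x c a / (x + q - 1)) * (kk x c b / (x + q - 1)))
      (lift fun c a b => G c * (kk x c a / (x + q - 1)) * (kk x c b / (x + q - 1))) =
      (∑ c, |F c - G c|) / 2 := by
  unfold TV
  rw [sum_triple]
  congr 1
  refine Finset.sum_congr rfl (fun c _ => ?_)
  have h1 : ∀ a b : Fin q, |lift (fun c a b => F c * (kk x c a / (x + q - 1)) *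
      (kk x c b / (x + q - 1))) ![c, a, b] - lift (fun c a b => G c * (kk x c a / (x + q - 1)) *
      (kk x c b / (x + q - 1))) ![c, a, b]| =
      |F c - G c| * (kk x c a / (x + q - 1)) * (kk x c b / (x + q - 1)) := by
    intro a b
    have h2 : lift (fun c a b => F c * (kk x c a / (x + q - 1)) *
      (kk x c b / (x + q - 1))) ![c, a, b] - lift (fun c a b => G c * (kk x c a / (x + q - 1)) *
      (kk x c b / (x + q - 1))) ![c, a, b] = (F c - G c) * ((kk x c a / (x + q - 1)) *
      (kk x c b / (x + q - 1))) := by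
      show F c * (kk x c a / (x + q - 1)) * (kk x c b / (x + q - 1)) -
        G c * (kk x c a / (x + q - 1)) * (kk x c b / (x + q - 1)) = _
      ring
    rw [h2, abs_mul, abs_of_pos (mul_pos (div_pos (kk_pos hx c a) hN)
      (div_pos (kk_pos hx c b) hN))]
    ring
  simp only [h1]
  simp only [← Finset.mul_sum, ← Finset.sum_mul, ← Finset.sum_div, sum_kk]
  field_simp

lemma RR_eq (x p : ℝ) (hq : (3 : ℝ) ≤ q) (hx : 0 < x) (a : Fin q) :
    RR x (fun c : Fin q => if c = 0 then p else (1 - p) / (q - 1)) a =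
      if a = 0 then (p * x + 1 - p) / (x + q - 1)
        else (1 - (p * x + 1 - p) / (x + q - 1)) / (q - 1) := by
  unfold RR
  rw [sum_mix]
  have h1 : (q : ℝ) - 1 ≠ 0 := by linarith
  have h2 : x + (q : ℝ) - 1 ≠ 0 := by linarith
  split_ifs
  · field_simp
    ring
  · field_simp
    ring

lemma DD_eq (x : ℝ) (a : Fin q) :
    DD x a = if a = 0 then x ^ 2 + q - 1 else 2 * x + q - 2 := by
  unfold DD
  have h : ∀ c : Fin q, kk x c a * kk x c 0 = (if c = 0 then x else 1) * kk x c a := by
    intro c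
    have h1 : kk x c 0 = if c = 0 then x else 1 := rfl
    rw [h1, mul_comm]
  rw [Finset.sum_congr rfl (fun c _ => h c), sum_mix]
  split_ifs <;> ring

/-- the probability of the colour `0` at the centre -/
noncomputable def PP (x Q p : ℝ) : ℝ :=
  (p * x + 1 - p) / (x + Q - 1) * (x ^ 2 / (x ^ 2 + Q - 1)) +
    (1 - (p * x + 1 - p) / (x + Q - 1)) * (x / (2 * x + Q - 2))

lemma FF_eq (x p : ℝ) (hq : (3 : ℝ) ≤ q) (hx : 0 < x) (c : Fin q) :
    FF x (fun c : Fin q => if c = 0 then p else (1 - p) / (q - 1)) c =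
      if c = 0 then PP x q p else (1 - PP x q p) / (q - 1) := by
  have h1 : (q : ℝ) - 1 ≠ 0 := by linarith
  have h2 : x + (q : ℝ) - 1 ≠ 0 := by linarith
  have h3 : x ^ 2 + (q : ℝ) - 1 ≠ 0 := by
    have := sq_nonneg x
    linarith
  have h4 : 2 * x + (q : ℝ) - 2 ≠ 0 := by linarith
  set r := (p * x + 1 - p) / (x + q - 1) with hr
  have e1 : FF x (fun c : Fin q => if c = 0 then p else (1 - p) / (q - 1)) c =
      kk x c 0 * ∑ a : Fin q, (if a = 0 then r / (x ^ 2 + q - 1)
        else (1 - r) / (q - 1) / (2 * x + q - 2)) * kk x a c := by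
    unfold FF
    rw [Finset.mul_sum]
    refine Finset.sum_congr rfl (fun a _ => ?_)
    rw [RR_eq x p hq hx a, DD_eq, kk_comm x a c, ← hr]
    split_ifs
    · field_simp
    · field_simp
  rw [e1, sum_mix]
  unfold PP kk
  rw [← hr]
  split_ifs
  · field_simp
    ring
  · rw [eq_div_iff h1]
    have f0 : x ^ 2 / (x ^ 2 + q - 1) = 1 - (q - 1) * (1 / (x ^ 2 + q - 1)) := by
      field_simp
      ring
    have f1 : x / (2 * x + q - 2) = 1 - (x + q - 2) * (1 / (2 * x + q - 2)) := by
      rw [div_eq_iff h4, sub_mul, mul_assoc, one_div, inv_mul_cancel₀ h4]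
      ring
    have f2 : r / (x ^ 2 + q - 1) = r * (1 / (x ^ 2 + q - 1)) := by ring
    have f3 : (1 - r) / (q - 1) / (2 * x + q - 2) =
        (1 - r) * (1 / (q - 1)) * (1 / (2 * x + q - 2)) := by ring
    have f4 : (1 / ((q : ℝ) - 1)) * (q - 1) = 1 := by
      rw [one_div, inv_mul_cancel₀ h1]
    rw [f0, f1, f2, f3]
    linear_combination ((1 - r) * (1 / (2 * x + q - 2)) * (x + q - 2)) * f4

lemma law_eq (β : ℝ) (l : List (Fin 3)) :
    law (q := q) star3 β l = run star3 β l
      (lift (g0 (fun c : Fin q => if c = 0 then 1 else (1 - 1) / (q - 1)))) := by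
  unfold law
  congr 1
  funext σ
  unfold lift g0 dd
  have h : (σ = fun _ => 0) ↔ (σ 0 = 0 ∧ σ 1 = 0 ∧ σ 2 = 0) := by
    constructor
    · rintro rfl
      exact ⟨rfl, rfl, rfl⟩
    · rintro ⟨h0, h1, h2⟩
      funext i
      fin_cases i
      · exact h0
      · exact h1
      · exact h2
  dsimp only
  by_cases h0 : σ 0 = 0
  · by_cases h1 : σ 1 = 0
    · by_cases h2 : σ 2 = 0
      · rw [if_pos (h.mpr ⟨h0, h1, h2⟩), if_pos h0, if_pos h1, if_pos h2]
        norm_num
      · rw [if_neg (fun h' => h2 (h.mp h').2.2), if_neg h2, mul_zero]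
    · rw [if_neg (fun h' => h1 (h.mp h').2.1), if_neg h1, mul_zero, zero_mul]
  · rw [if_neg (fun h' => h0 (h.mp h').1), if_neg h0]
    norm_num

lemma first_step (β : ℝ) (hq : (3 : ℝ) ≤ q) :
    (fun τ => ∑ σ, lift (g0 (fun c : Fin q => if c = 0 then 1 else (1 - 1) / ((q : ℝ) - 1))) σ *
      upd star3 β 0 σ τ) =
      lift (g0 (fun c : Fin q => if c = 0 then
        (Real.exp β) ^ 2 / ((Real.exp β) ^ 2 + q - 1) else
        (1 - (Real.exp β) ^ 2 / ((Real.exp β) ^ 2 + q - 1)) / (q - 1))) := by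
  rw [step0]
  set x := Real.exp β
  have h3 : x ^ 2 + (q : ℝ) - 1 ≠ 0 := by
    have := sq_nonneg x
    linarith
  have h1 : (q : ℝ) - 1 ≠ 0 := by linarith
  congr 1
  funext c a b
  unfold g0
  rw [← Finset.sum_mul, ← Finset.sum_mul, sum_ite0]
  by_cases ha : a = 0
  · by_cases hb : b = 0
    · subst ha hb
      have h4 : ∑ c' : Fin q, kk x c' 0 * kk x c' 0 = x ^ 2 + q - 1 := by
        have := DD_eq x (0 : Fin q)
        rw [if_pos rfl] at this
        exact this
      rw [h4]
      unfold kk dd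
      dsimp only
      rw [if_pos rfl]
      by_cases hc : c = 0
      · rw [if_pos hc, if_pos hc]
        field_simp
        ring
      · rw [if_neg hc, if_neg hc]
        field_simp
        ring
    · unfold dd
      rw [if_neg hb]
      ring
  · unfold dd
    rw [if_neg ha]
    ring

/-- the distance from equilibrium -/
lemma TV_eq (β p : ℝ) (hq : (3 : ℝ) ≤ q) :
    TV (run star3 β [1, 0, 1, 2] (lift (g0 (fun c : Fin q => if c = 0 then p
      else (1 - p) / ((q : ℝ) - 1))))) (gibbs (q := q) star3 β) = |PP (Real.exp β) q p - 1 / q| := by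
  have hx := Real.exp_pos β
  have hN : 0 < Real.exp β + q - 1 := by linarith
  have hq0 : 0 < q := Nat.pos_of_ne_zero (NeZero.ne q)
  rw [run_tail β _, gibbs_star β hq0 hN,
    TV_star (Real.exp β) hx _ (fun _ => (1 / q : ℝ)) hN]
  have h1 : ∀ c : Fin q, |FF (Real.exp β) (fun c : Fin q => if c = 0 then p
      else (1 - p) / ((q : ℝ) - 1)) c - 1 / q| =
      if c = 0 then |PP (Real.exp β) q p - 1 / q| else |PP (Real.exp β) q p - 1 / q| / (q - 1) := by
    intro c
    rw [FF_eq _ p hq hx]
    split_ifs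
    · rfl
    · have h2 : (1 - PP (Real.exp β) q p) / (q - 1) - 1 / q =
          -((PP (Real.exp β) q p - 1 / q) / (q - 1)) := by
        have : (q : ℝ) - 1 ≠ 0 := by linarith
        have : (q : ℝ) ≠ 0 := by linarith
        field_simp
        ring
      rw [h2, abs_neg, abs_div, abs_of_pos (show (0 : ℝ) < q - 1 by linarith)]
  rw [Finset.sum_congr rfl (fun c _ => h1 c), sum_ite0]
  have : (q : ℝ) - 1 ≠ 0 := by linarith
  field_simp
  ring

end

/-- the comparison of the two schedules -/
lemma compare (x Q : ℝ) (hx : 0 < x) (hx1 : x < 1) (hQ : 3 ≤ Q) :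
    PP x Q (x ^ 2 / (x ^ 2 + Q - 1)) < PP x Q 1 ∧ PP x Q 1 < 1 / Q := by
  have hN : 0 < x + Q - 1 := by linarith
  have hD0 : 0 < x ^ 2 + Q - 1 := by nlinarith [sq_nonneg x]
  have hD1 : 0 < 2 * x + Q - 2 := by linarith
  have hpu : x ^ 2 / (x ^ 2 + Q - 1) < x / (2 * x + Q - 2) := by
    rw [div_lt_div_iff₀ hD0 hD1]
    nlinarith [mul_pos hx (mul_pos (sub_pos.mpr hx1) hN)]
  have hu : x / (2 * x + Q - 2) < 1 / Q := by
    rw [div_lt_div_iff₀ hD1 (by linarith)]
    nlinarith [mul_pos (show 0 < Q - 2 by linarith) (sub_pos.mpr hx1)]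
  have hp1 : x ^ 2 / (x ^ 2 + Q - 1) < 1 := by
    rw [div_lt_one hD0]
    linarith
  set p1 := x ^ 2 / (x ^ 2 + Q - 1) with hp1def
  set u := x / (2 * x + Q - 2) with hudef
  have hrr : (1 * x + 1 - 1) / (x + Q - 1) < (p1 * x + 1 - p1) / (x + Q - 1) := by
    apply div_lt_div_of_pos_right _ hN
    nlinarith [mul_pos (sub_pos.mpr hp1) (sub_pos.mpr hx1)]
  have hr0 : 0 ≤ (1 * x + 1 - 1) / (x + Q - 1) := by
    apply div_nonneg _ hN.le
    linarith
  constructor
  · unfold PP
    rw [← hp1def, ← hudef]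
    nlinarith [mul_pos (sub_pos.mpr hrr) (sub_pos.mpr hpu)]
  · unfold PP
    rw [← hp1def, ← hudef]
    nlinarith [mul_nonneg hr0 (sub_pos.mpr hpu).le]

end Aux

open Aux in
/-- the censoring inequality fails for the antiferromagnetic Potts model -/
theorem t_PC (q : ℕ) [NeZero q] (hq : 3 ≤ q) (β : ℝ) (hβ : β < 0) :
    ∃ (G : SimpleGraph (Fin 3)) (_ : DecidableRel G.Adj) (v w : List (Fin 3)), w.Sublist v ∧
      TV (law (q := q) G β w) (gibbs G β) < TV (law (q := q) G β v) (gibbs G β) := by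
  refine ⟨star3, inferInstance, [0, 1, 0, 1, 2], [1, 0, 1, 2], List.sublist_cons_self _ _, ?_⟩
  have hQ : (3 : ℝ) ≤ q := by exact_mod_cast hq
  have hx := Real.exp_pos β
  have hx1 : Real.exp β < 1 := by
    rw [← Real.exp_zero]
    exact Real.exp_lt_exp.mpr hβ
  have e1 : run star3 β [0, 1, 0, 1, 2] (lift (g0 (fun c : Fin q => if c = 0 then 1
      else (1 - 1) / ((q : ℝ) - 1)))) = run star3 β [1, 0, 1, 2] (fun τ => ∑ σ,
      lift (g0 (fun c : Fin q => if c = 0 then 1 else (1 - 1) / ((q : ℝ) - 1))) σ *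
      upd star3 β 0 σ τ) := rfl
  rw [law_eq, law_eq, e1, first_step β hQ, TV_eq β _ hQ, TV_eq β _ hQ]
  obtain ⟨h1, h2⟩ := compare (Real.exp β) q hx hx1 hQ
  rw [abs_of_neg (by linarith), abs_of_neg (by linarith)]
  linarith

end Pool.Agent.N983.PC
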